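import Pool.Agent.W475.BH.Stm

set_option autoImplicit false

namespace Pool.Agent.W112.BH

open Complex MeasureTheory Filter Topology Set
open Pool.Agent.W475.BH

/-- radial kernel -/
noncomputable def kr (r y : ℝ) : ℝ := if y < r then Real.log (r * y⁻¹) else 0

lemma kr_nonneg {r y : ℝ} (hy : 0 ≤ y) : 0 ≤ kr r y := by
  unfold kr
  split_ifs with h
  · rcases hy.eq_or_lt with rfl | hy
    · simp
    · apply Real.log_nonneg
      rw [← div_eq_mul_inv, one_le_div hy]; exact h.le
  · exact le_rfl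

lemma kr_eq (r : ℝ) (hr : 0 < r) : ∀ y ∈ Ioi (0 : ℝ), y * kr r y =
    (Ioc (0 : ℝ) r).indicator (fun y => y * Real.log r - y * Real.log y) y := by
  intro y hy
  have hy0 : 0 < y := hy
  unfold kr
  by_cases h : y < r
  · have hm : y ∈ Ioc (0 : ℝ) r := ⟨hy0, h.le⟩
    rw [if_pos h, indicator_of_mem hm,
      Real.log_mul hr.ne' (inv_ne_zero hy0.ne'), Real.log_inv]
    ring
  · rw [if_neg h]
    by_cases h2 : y = r
    · subst h2
      have hm : y ∈ Ioc (0 : ℝ) y := ⟨hy0, le_rfl⟩
      rw [indicator_of_mem hm]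
      ring
    · rw [indicator_of_notMem]
      · ring
      · rintro ⟨_, h3⟩
        exact h2 (le_antisymm h3 (not_lt.mp h))

lemma cont_kr (r : ℝ) : Continuous (fun y : ℝ => y * Real.log r - y * Real.log y) :=
  (continuous_id.mul continuous_const).sub Real.continuous_mul_log

lemma integrableOn_kr (r : ℝ) (hr : 0 < r) : IntegrableOn (fun y : ℝ => y * kr r y) (Ioi 0) := by
  rw [integrableOn_congr_fun (kr_eq r hr) measurableSet_Ioi]
  apply Integrable.integrableOn
  rw [integrable_indicator_iff measurableSet_Ioc]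
  exact ((cont_kr r).continuousOn.integrableOn_compact isCompact_Icc).mono_set Ioc_subset_Icc_self

lemma integral_kr (r : ℝ) (hr : 0 < r) : ∫ y in Ioi (0 : ℝ), y * kr r y = r ^ 2 / 4 := by
  rw [setIntegral_congr_fun measurableSet_Ioi (kr_eq r hr), setIntegral_indicator measurableSet_Ioc]
  have h1 : Ioi (0 : ℝ) ∩ Ioc 0 r = Ioc 0 r := by
    apply inter_eq_right.mpr
    intro y hy; exact hy.1
  rw [h1, ← intervalIntegral.integral_of_le hr.le]
  have h2 := intervalIntegral.integral_eq_sub_of_hasDerivAt_of_le (a := 0) (b := r)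
    (f := fun y : ℝ => y ^ 2 / 2 * Real.log r - (y / 2 * (y * Real.log y) - y ^ 2 / 4))
    (f' := fun y : ℝ => y * Real.log r - y * Real.log y) hr.le
    (by
      apply Continuous.continuousOn
      have := Real.continuous_mul_log
      fun_prop)
    (by
      intro y hy
      have hy0 : y ≠ 0 := hy.1.ne'
      have h3 := Real.hasDerivAt_mul_log hy0
      have h4 : HasDerivAt (fun y : ℝ => y ^ 2 / 2 * Real.log r)
          ((2 : ℕ) * y ^ (2 - 1) / 2 * Real.log r) y := ((hasDerivAt_pow 2 y).div_const 2).mul_const _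
      have h5 : HasDerivAt (fun y : ℝ => y / 2) (1 / 2) y := (hasDerivAt_id y).div_const 2
      have h6 : HasDerivAt (fun y : ℝ => y ^ 2 / 4) ((2 : ℕ) * y ^ (2 - 1) / 4) y :=
        (hasDerivAt_pow 2 y).div_const 4
      have h7 := h4.sub ((h5.mul h3).sub h6)
      have h8 : (2 : ℕ) * y ^ (2 - 1) / 2 * Real.log r -
          (1 / 2 * (y * Real.log y) + y / 2 * (Real.log y + 1) - (2 : ℕ) * y ^ (2 - 1) / 4) =
          y * Real.log r - y * Real.log y := by
        simp only [Nat.add_one_sub_one, pow_one]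
        push_cast
        ring
      rw [h8] at h7
      exact h7)
    ((cont_kr r).intervalIntegrable _ _)
  rw [h2]
  simp
  ring

lemma integrable_kr2 (r : ℝ) (hr : 0 < r) : Integrable (fun z : ℂ => kr r ‖z‖) := by
  rw [integrable_fun_norm_addHaar volume (f := kr r)]
  simpa [Complex.finrank_real_complex] using integrableOn_kr r hr

lemma integral_kr2 (r : ℝ) (hr : 0 < r) : ∫ z : ℂ, kr r ‖z‖ = Real.pi * r ^ 2 / 2 := by
  rw [integral_fun_norm_addHaar volume (kr r)]
  have h1 : volume.real (Metric.ball (0 : ℂ) 1) = Real.pi := by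
    rw [Measure.real, Complex.volume_ball]
    simp
  rw [h1, Complex.finrank_real_complex]
  simp only [Nat.add_one_sub_one, pow_one, smul_eq_mul, nsmul_eq_mul]
  rw [integral_kr r hr]
  push_cast
  ring

lemma zeros_finite {f : ℂ → ℂ} (hf : Differentiable ℂ f) (h : ∃ z, f z ≠ 0) {K : Set ℂ}
    (hK : IsCompact K) : {z | z ∈ K ∧ f z = 0}.Finite := by
  by_contra hinf
  obtain ⟨x, hx, hacc⟩ := (show {z | z ∈ K ∧ f z = 0}.Infinite from hinf).exists_accPt_of_subset_isCompact
    hK (fun z hz => hz.1)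
  obtain ⟨z0, hz0⟩ := h
  apply hz0
  have hA : AnalyticOnNhd ℂ f univ := fun z _ => hf.analyticAt z
  have h2 : ∃ᶠ z in 𝓝[≠] x, f z = 0 := by
    rw [accPt_iff_frequently_nhdsNE] at hacc
    exact hacc.mono (fun z hz => hz.2)
  exact hA.eqOn_zero_of_preconnected_of_frequently_eq_zero isPreconnected_univ (mem_univ x) h2
    (mem_univ z0)

lemma ord_ne_top {f : ℂ → ℂ} (hf : Differentiable ℂ f) (h : ∃ z, f z ≠ 0) (u : ℂ) :
    analyticOrderAt f u ≠ ⊤ := by
  rw [Ne, AnalyticOnNhd.analyticOrderAt_eq_top_iff_eq_zero u (fun z => hf.analyticAt z)]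
  rintro rfl
  obtain ⟨z, hz⟩ := h
  exact hz rfl

lemma jensen_pt {f : ℂ → ℂ} (hf : Differentiable ℂ f) {w : ℂ} (hw : f w ≠ 0) {r : ℝ} (hr : 0 < r)
    (Z : Finset ℂ) (hZ : ∀ z, ‖w - z‖ ≤ r → f z = 0 → z ∈ Z) :
    Real.circleAverage (fun z => Real.log ‖f z‖) w r - Real.log ‖f w‖ =
      ∑ u ∈ Z, (analyticOrderNatAt f u : ℝ) * kr r ‖w - u‖ := by
  have hA : AnalyticOnNhd ℂ f (Metric.closedBall w |r|) := fun z _ => hf.analyticAt z
  have h1 := hA.circleAverage_log_norm hr.ne' hw
  rw [h1, add_sub_cancel_right]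
  have hD : ∀ u, ((MeromorphicOn.divisor f (Metric.closedBall w |r|) u : ℤ) : ℝ) *
      Real.log (r * ‖w - u‖⁻¹) = (analyticOrderNatAt f u : ℝ) * kr r ‖w - u‖ := by
    intro u
    by_cases hu : u ∈ Metric.closedBall w |r|
    · rw [MeromorphicOn.AnalyticOnNhd.divisor_apply hA hu]
      have hne := ord_ne_top hf ⟨w, hw⟩ u
      obtain ⟨n, hn⟩ := ENat.ne_top_iff_exists.mp hne
      have h2 : analyticOrderNatAt f u = n := by
        unfold analyticOrderNatAt
        rw [← hn]; rfl
      rw [h2, ← hn]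
      have h3 : ((ENat.map (Nat.cast : ℕ → ℤ) (n : ℕ∞)).untop₀ : ℤ) = (n : ℤ) := by
        simp
      rw [h3]
      rw [Metric.mem_closedBall, dist_comm, dist_eq_norm, abs_of_pos hr] at hu
      unfold kr
      by_cases h4 : ‖w - u‖ < r
      · rw [if_pos h4]; push_cast; rfl
      · have h5 : ‖w - u‖ = r := le_antisymm hu (not_lt.mp h4)
        rw [if_neg h4, h5, mul_inv_cancel₀ hr.ne', Real.log_one]
        ring
    · have h2 : MeromorphicOn.divisor f (Metric.closedBall w |r|) u = 0 := by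
        rw [MeromorphicOn.divisor_def, if_neg (fun h => hu h.2)]
      rw [h2]
      rw [Metric.mem_closedBall, dist_comm, dist_eq_norm, abs_of_pos hr, not_le] at hu
      unfold kr
      rw [if_neg (not_lt.mpr hu.le)]
      simp
  rw [finsum_congr hD]
  apply finsum_eq_sum_of_support_subset
  intro u hu
  rw [Function.mem_support] at hu
  have h2 : (analyticOrderNatAt f u : ℝ) ≠ 0 := left_ne_zero_of_mul hu
  have h3 : kr r ‖w - u‖ ≠ 0 := right_ne_zero_of_mul hu
  apply hZ
  · by_contra h4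
    apply h3
    unfold kr
    rw [if_neg]
    push Not at h4
    exact not_lt.mpr h4.le
  · exact apply_eq_zero_of_analyticOrderNatAt_ne_zero (by exact_mod_cast h2)

lemma nz_eq {f : ℂ → ℂ} (A : Set ℂ) (Z : Finset ℂ) (hZ : ∀ z ∈ A, f z = 0 → z ∈ Z) :
    (nz f A : ℝ) = ∑ u ∈ Z, A.indicator (fun u => (analyticOrderNatAt f u : ℝ)) u := by
  unfold nz
  rw [finsum_mem_def, finsum_eq_sum_of_support_subset (s := Z)]
  · push_cast
    apply Finset.sum_congr rfl
    intro u _
    by_cases hu : u ∈ A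
    · simp [hu]
    · simp [hu]
  · intro u hu
    rw [Function.mem_support] at hu
    have h1 : u ∈ A := by
      by_contra h
      exact hu (indicator_of_notMem h _)
    rw [indicator_of_mem h1] at hu
    exact hZ u h1 (apply_eq_zero_of_analyticOrderNatAt_ne_zero hu)

lemma Bx_compact (a b c d : ℝ) : IsCompact (Bx a b c d) := by
  have : Bx a b c d = Icc a b ×ℂ Icc c d := by
    ext z
    simp only [Bx, mem_ofPred_eq, Complex.mem_reProdIm, mem_Icc]
    tauto
  rw [this]
  exact isCompact_Icc.reProdIm isCompact_Icc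

theorem ca3' : S_CA3 := by
  classical
  intro f hf hne a b c d r hr hab hcd
  set Bo := Bx (a - r) (b + r) (c - r) (d + r) with hBo
  set Bi := Bx (a + r) (b - r) (c + r) (d - r) with hBi
  set B := Bx a b c d with hB
  have hfin := zeros_finite hf hne (Bx_compact (a - r) (b + r) (c - r) (d + r))
  set Z := hfin.toFinset with hZ
  have hZm : ∀ z, z ∈ Z ↔ z ∈ Bo ∧ f z = 0 := by
    intro z; rw [hZ, Set.Finite.mem_toFinset]; rfl
  have hBm : MeasurableSet B := (Bx_compact a b c d).isClosed.measurableSet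
  have hint : ∀ u : ℂ, Integrable (fun w : ℂ => kr r ‖w - u‖) := fun u =>
    (integrable_kr2 r hr).comp_sub_right u
  have htot : ∀ u : ℂ, ∫ w : ℂ, kr r ‖w - u‖ = Real.pi * r ^ 2 / 2 := fun u => by
    rw [integral_sub_right_eq_self (fun w : ℂ => kr r ‖w‖) u, integral_kr2 r hr]
  have hsum : ∫ w in B, (Real.circleAverage (fun z => Real.log ‖f z‖) w r - Real.log ‖f w‖) =
      ∑ u ∈ Z, (analyticOrderNatAt f u : ℝ) * ∫ w in B, kr r ‖w - u‖ := by
    have h1 : ∫ w in B, (Real.circleAverage (fun z => Real.log ‖f z‖) w r - Real.log ‖f w‖) =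
        ∫ w in B, ∑ u ∈ Z, (analyticOrderNatAt f u : ℝ) * kr r ‖w - u‖ := by
      apply setIntegral_congr_ae hBm
      have h2 : ∀ᵐ w : ℂ, w ∉ (Z : Set ℂ) := by
        rw [ae_iff]
        simp only [not_not]
        exact Z.finite_toSet.measure_zero volume
      filter_upwards [h2] with w hw hwB
      have hre : a ≤ w.re ∧ w.re ≤ b ∧ c ≤ w.im ∧ w.im ≤ d := hwB
      apply jensen_pt hf _ hr
      · intro z hz hz0
        rw [hZm]
        refine ⟨?_, hz0⟩
        have h3 : |w.re - z.re| ≤ r := by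
          have := Complex.abs_re_le_norm (w - z)
          rw [Complex.sub_re] at this
          linarith
        have h4 : |w.im - z.im| ≤ r := by
          have := Complex.abs_im_le_norm (w - z)
          rw [Complex.sub_im] at this
          linarith
        rw [abs_le] at h3 h4
        refine ⟨?_, ?_, ?_, ?_⟩ <;> linarith [hre.1, hre.2.1, hre.2.2.1, hre.2.2.2, h3.1, h3.2, h4.1, h4.2]
      · intro h0
        apply hw
        rw [Finset.mem_coe, hZm]
        refine ⟨?_, h0⟩
        refine ⟨?_, ?_, ?_, ?_⟩ <;> linarith [hre.1, hre.2.1, hre.2.2.1, hre.2.2.2]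
    rw [h1, integral_finsetSum]
    · apply Finset.sum_congr rfl
      intro u _
      rw [integral_const_mul]
    · intro u _
      exact ((hint u).const_mul _).integrableOn
  have hJ0 : ∀ u, 0 ≤ ∫ w in B, kr r ‖w - u‖ := fun u =>
    integral_nonneg (fun w => kr_nonneg (norm_nonneg _))
  have hJ1 : ∀ u, ∫ w in B, kr r ‖w - u‖ ≤ Real.pi * r ^ 2 / 2 := fun u => by
    rw [← htot u]
    exact setIntegral_le_integral (hint u) (Eventually.of_forall fun w => kr_nonneg (norm_nonneg _))
  have hJ2 : ∀ u ∈ Bi, ∫ w in B, kr r ‖w - u‖ = Real.pi * r ^ 2 / 2 := by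
    intro u hu
    rw [← htot u]
    apply setIntegral_eq_integral_of_forall_compl_eq_zero
    intro w hw
    have hu' : a + r ≤ u.re ∧ u.re ≤ b - r ∧ c + r ≤ u.im ∧ u.im ≤ d - r := hu
    unfold kr
    rw [if_neg]
    intro h3
    apply hw
    have h4 : |w.re - u.re| ≤ r := by
      have := Complex.abs_re_le_norm (w - u)
      rw [Complex.sub_re] at this
      linarith
    have h5 : |w.im - u.im| ≤ r := by
      have := Complex.abs_im_le_norm (w - u)
      rw [Complex.sub_im] at this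
      linarith
    rw [abs_le] at h4 h5
    refine ⟨?_, ?_, ?_, ?_⟩ <;> linarith [hu'.1, hu'.2.1, hu'.2.2.1, hu'.2.2.2, h4.1, h4.2, h5.1, h5.2]
  have hni : (nz f Bi : ℝ) = ∑ u ∈ Z, Bi.indicator (fun u => (analyticOrderNatAt f u : ℝ)) u := by
    apply nz_eq
    intro z hz h0
    rw [hZm]
    refine ⟨?_, h0⟩
    have hu' : a + r ≤ z.re ∧ z.re ≤ b - r ∧ c + r ≤ z.im ∧ z.im ≤ d - r := hz
    refine ⟨?_, ?_, ?_, ?_⟩ <;> linarith [hu'.1, hu'.2.1, hu'.2.2.1, hu'.2.2.2]
  have hno : (nz f Bo : ℝ) = ∑ u ∈ Z, Bo.indicator (fun u => (analyticOrderNatAt f u : ℝ)) u := by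
    apply nz_eq
    intro z hz h0
    rw [hZm]
    exact ⟨hz, h0⟩
  rw [hsum, hni, hno, Finset.mul_sum, Finset.mul_sum]
  constructor
  · apply Finset.sum_le_sum
    intro u _
    by_cases hu : u ∈ Bi
    · rw [indicator_of_mem hu, hJ2 u hu]
      exact le_of_eq (mul_comm _ _)
    · rw [indicator_of_notMem hu, mul_zero]
      exact mul_nonneg (Nat.cast_nonneg _) (hJ0 u)
  · apply Finset.sum_le_sum
    intro u hu
    rw [indicator_of_mem ((hZm u).mp hu).1, mul_comm (Real.pi * r ^ 2 / 2)]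
    exact mul_le_mul_of_nonneg_left (hJ1 u) (Nat.cast_nonneg _)

theorem ca3 (_h1 : S_CA1) : S_CA3 := ca3'

end Pool.Agent.W112.BH
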