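import Pool.Agent.W475.BH.Stm

set_option autoImplicit false

namespace Pool.Agent.W112.BH

open Complex MeasureTheory Filter Topology Set
open Pool.Agent.W475.BH

lemma Gk_bd {κ A B : ℝ} (hκ : 0 < κ) (hAB : A ≤ B) (u v : ℝ) :
    0 ≤ Gk κ A B u v ∧
      Gk κ A B u v ≤ Real.sqrt (Real.pi / (2 * κ)) * Real.exp (-(κ * (u - v) ^ 2 / 2)) := by
  unfold Gk
  rw [intervalIntegral.integral_of_le hAB]
  have h1 : ∀ l : ℝ, Real.exp (-(κ * (u - l) ^ 2) - κ * (v - l) ^ 2) =
      Real.exp (-(κ * (u - v) ^ 2 / 2)) * Real.exp (-(2 * κ) * (l - (u + v) / 2) ^ 2) := by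
    intro l; rw [← Real.exp_add]; congr 1; ring
  simp_rw [h1]
  have hint : Integrable (fun l : ℝ => Real.exp (-(2 * κ) * (l - (u + v) / 2) ^ 2)) :=
    (integrable_exp_neg_mul_sq (by positivity : 0 < 2 * κ)).comp_sub_right ((u + v) / 2)
  constructor
  · exact integral_nonneg (fun l => by positivity)
  · rw [integral_const_mul, mul_comm]
    apply mul_le_mul_of_nonneg_right _ (Real.exp_pos _).le
    calc ∫ l in Ioc A B, Real.exp (-(2 * κ) * (l - (u + v) / 2) ^ 2)
        ≤ ∫ l, Real.exp (-(2 * κ) * (l - (u + v) / 2) ^ 2) :=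
          setIntegral_le_integral hint (ae_of_all _ fun l => (Real.exp_pos _).le)
      _ = Real.sqrt (Real.pi / (2 * κ)) := by
          rw [integral_sub_right_eq_self (fun l : ℝ => Real.exp (-(2 * κ) * l ^ 2)),
            integral_gaussian]

noncomputable def av (W s : ℝ) : ℂ :=
  ((1 / W : ℝ) : ℂ) * ∫ h in (0 : ℝ)..W, cexp (-(I * h * (s : ℂ)))

lemma av_bd {W s : ℝ} (hW : 1 ≤ W) (hs : s ≠ 0) : ‖av W s‖ ≤ min 1 (2 / (W * |s|)) := by
  have hW0 : 0 < W := by linarith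
  have hn : ∀ h : ℝ, ‖cexp (-(I * h * (s : ℂ)))‖ = 1 := by
    intro h
    have : -(I * h * (s : ℂ)) = ((-(h * s) : ℝ) : ℂ) * I := by push_cast; ring
    rw [this, Complex.norm_exp_ofReal_mul_I]
  unfold av
  rw [norm_mul, Complex.norm_real, Real.norm_eq_abs, abs_of_pos (by positivity)]
  apply le_min
  · have h1 : ‖∫ h in (0 : ℝ)..W, cexp (-(I * h * (s : ℂ)))‖ ≤ 1 * |W - 0| :=
      intervalIntegral.norm_integral_le_of_norm_le_const (fun h _ => (hn h).le)
    rw [sub_zero, abs_of_pos hW0, one_mul] at h1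
    calc 1 / W * ‖∫ h in (0 : ℝ)..W, cexp (-(I * h * (s : ℂ)))‖ ≤ 1 / W * W := by gcongr
      _ = 1 := by field_simp
  · have hc : -(I * (s : ℂ)) ≠ 0 := by
      simp [hs]
    have h1 : ∀ h : ℝ, cexp (-(I * h * (s : ℂ))) = cexp (-(I * (s : ℂ)) * h) := by
      intro h; congr 1; ring
    simp_rw [h1]
    rw [integral_exp_mul_complex hc, norm_div]
    have h2 : ‖-(I * (s : ℂ))‖ = |s| := by
      rw [norm_neg, norm_mul, Complex.norm_I, one_mul, Complex.norm_real, Real.norm_eq_abs]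
    rw [h2]
    have h3 : ‖cexp (-(I * (s : ℂ)) * (W : ℝ)) - cexp (-(I * (s : ℂ)) * (0 : ℝ))‖ ≤ 2 := by
      calc _ ≤ ‖cexp (-(I * (s : ℂ)) * (W : ℝ))‖ + ‖cexp (-(I * (s : ℂ)) * (0 : ℝ))‖ :=
            norm_sub_le _ _
        _ = 2 := by rw [← h1, ← h1, hn, hn]; norm_num
    have hs' : 0 < |s| := abs_pos.mpr hs
    calc 1 / W * (‖cexp (-(I * (s : ℂ)) * (W : ℝ)) - cexp (-(I * (s : ℂ)) * (0 : ℝ))‖ / |s|)
        ≤ 1 / W * (2 / |s|) := by gcongr
      _ = 2 / (W * |s|) := by field_simp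

lemma aw_bd {κ A B W : ℝ} (hκ : 0 < κ) (hAB : A ≤ B) (hW : 1 ≤ W) {n p : ℕ} (hn : 1 ≤ n)
    (hp : 1 ≤ p) (hnp : n ≠ p) :
    ‖aw κ A B W n p‖ ≤ Real.sqrt (Real.pi / (2 * κ)) * ((n : ℝ) * p) ^ (-(1 / 2) : ℝ) *
      Real.exp (-(κ * Real.log ((n : ℝ) / p) ^ 2 / 2)) *
      min 1 (2 / (W * |Real.log ((n : ℝ) / p)|)) := by
  have hn0 : (0 : ℝ) < n := by exact_mod_cast hn
  have hp0 : (0 : ℝ) < p := by exact_mod_cast hp
  have hs : Real.log ((n : ℝ) / p) ≠ 0 := by
    apply Real.log_ne_zero_of_pos_of_ne_one (by positivity)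
    intro h
    rw [div_eq_one_iff_eq hp0.ne'] at h
    exact hnp (by exact_mod_cast h)
  have hcc : ∀ m : ℕ, ‖cc κ m‖ = 1 := by
    intro m
    unfold cc
    rw [mul_comm, Complex.norm_exp_ofReal_mul_I]
  have hG := Gk_bd hκ hAB (Real.log n) (Real.log p)
  have hlog : Real.log n - Real.log p = Real.log ((n : ℝ) / p) :=
    (Real.log_div hn0.ne' hp0.ne').symm
  rw [hlog] at hG
  have hav := av_bd hW hs
  unfold aw
  change ‖((((n : ℝ) * p) ^ (-(1 / 2) : ℝ) * Gk κ A B (Real.log n) (Real.log p) : ℝ) : ℂ) *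
    (cc κ n * (starRingEnd ℂ) (cc κ p)) * av W (Real.log ((n : ℝ) / p))‖ ≤ _
  rw [norm_mul, norm_mul, norm_mul, RCLike.norm_conj, hcc, hcc, mul_one, mul_one,
    Complex.norm_real, Real.norm_eq_abs, abs_of_nonneg (mul_nonneg (by positivity) hG.1)]
  apply mul_le_mul _ hav (norm_nonneg _) (by positivity)
  calc ((n : ℝ) * p) ^ (-(1 / 2) : ℝ) * Gk κ A B (Real.log n) (Real.log p)
      ≤ ((n : ℝ) * p) ^ (-(1 / 2) : ℝ) * (Real.sqrt (Real.pi / (2 * κ)) *
        Real.exp (-(κ * Real.log ((n : ℝ) / p) ^ 2 / 2))) := by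
          apply mul_le_mul_of_nonneg_left hG.2 (by positivity)
    _ = _ := by ring

lemma rp_sq {x : ℝ} (hx : 0 < x) : (x ^ (-(1 / 2) : ℝ)) ^ 2 = x⁻¹ := by
  rw [← Real.rpow_natCast, ← Real.rpow_mul hx.le]
  norm_num
  exact Real.rpow_neg_one x

lemma aw_sq {κ A B W : ℝ} (hκ : 0 < κ) (hAB : A ≤ B) (hW : 1 ≤ W) {n p : ℕ} (hn : 1 ≤ n)
    (hp : 1 ≤ p) (hnp : n ≠ p) :
    ‖aw κ A B W n p‖ ^ 2 ≤ (Real.pi / (2 * κ)) * ((1 / (p : ℝ)) * (1 / (n : ℝ) *
      Real.exp (-(κ * Real.log ((n : ℝ) / p) ^ 2)) *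
      min 1 (4 / (W * Real.log ((n : ℝ) / p)) ^ 2))) := by
  have hn0 : (0 : ℝ) < n := by exact_mod_cast hn
  have hp0 : (0 : ℝ) < p := by exact_mod_cast hp
  have h1 := aw_bd (W := W) hκ hAB hW hn hp hnp
  set s := Real.log ((n : ℝ) / p) with hs
  have hmin0 : 0 ≤ min 1 (2 / (W * |s|)) := le_min zero_le_one (by positivity)
  have h2 : (min 1 (2 / (W * |s|))) ^ 2 ≤ min 1 (4 / (W * s) ^ 2) := by
    apply le_min
    · exact pow_le_one₀ hmin0 (min_le_left _ _)
    · calc (min 1 (2 / (W * |s|))) ^ 2 ≤ (2 / (W * |s|)) ^ 2 := by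
            apply pow_le_pow_left₀ hmin0 (min_le_right _ _)
        _ = 4 / (W * s) ^ 2 := by
            rw [div_pow, mul_pow, mul_pow, sq_abs]; norm_num
  calc ‖aw κ A B W n p‖ ^ 2 ≤ (Real.sqrt (Real.pi / (2 * κ)) * ((n : ℝ) * p) ^ (-(1 / 2) : ℝ) *
      Real.exp (-(κ * s ^ 2 / 2)) * min 1 (2 / (W * |s|))) ^ 2 := by gcongr
    _ = (Real.sqrt (Real.pi / (2 * κ))) ^ 2 * (((n : ℝ) * p) ^ (-(1 / 2) : ℝ)) ^ 2 *
      (Real.exp (-(κ * s ^ 2 / 2))) ^ 2 * (min 1 (2 / (W * |s|))) ^ 2 := by ring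
    _ = (Real.pi / (2 * κ)) * ((n : ℝ) * p)⁻¹ * Real.exp (-(κ * s ^ 2)) *
      (min 1 (2 / (W * |s|))) ^ 2 := by
        rw [Real.sq_sqrt (by positivity), rp_sq (by positivity), ← Real.exp_nat_mul]
        congr 3
        push_cast; ring
    _ ≤ (Real.pi / (2 * κ)) * ((n : ℝ) * p)⁻¹ * Real.exp (-(κ * s ^ 2)) *
      min 1 (4 / (W * s) ^ 2) := by gcongr
    _ = _ := by
        rw [mul_inv]; ring

lemma aw_one {κ A B W : ℝ} (hκ : 0 < κ) (hAB : A ≤ B) (hW : 1 ≤ W) {n p : ℕ} (hn : 1 ≤ n)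
    (hp : 1 ≤ p) (hnp : n ≠ p) :
    ‖aw κ A B W n p‖ ≤ Real.sqrt (Real.pi / (2 * κ)) := by
  have hn0 : (1 : ℝ) ≤ n := by exact_mod_cast hn
  have hp0 : (1 : ℝ) ≤ p := by exact_mod_cast hp
  refine (aw_bd (W := W) hκ hAB hW hn hp hnp).trans ?_
  have h1 : ((n : ℝ) * p) ^ (-(1 / 2) : ℝ) ≤ 1 :=
    Real.rpow_le_one_of_one_le_of_nonpos (by nlinarith) (by norm_num)
  have h2 : Real.exp (-(κ * Real.log ((n : ℝ) / p) ^ 2 / 2)) ≤ 1 := by
    rw [Real.exp_le_one_iff]
    have : 0 ≤ κ * Real.log ((n : ℝ) / p) ^ 2 / 2 := by positivity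
    linarith
  have h3 : min 1 (2 / (W * |Real.log ((n : ℝ) / p)|)) ≤ 1 := min_le_left _ _
  have h30 : 0 ≤ min 1 (2 / (W * |Real.log ((n : ℝ) / p)|)) :=
    le_min zero_le_one (by positivity)
  calc _ ≤ Real.sqrt (Real.pi / (2 * κ)) * 1 * 1 * 1 := by gcongr
    _ = _ := by ring

lemma aw_mul {κ A B W : ℝ} (hκ : 0 < κ) (hAB : A ≤ B) (hW : 1 ≤ W) {m p : ℕ} (hm : 2 ≤ m)
    (hp : 1 ≤ p) :
    ‖aw κ A B W (p * m) p‖ ≤ (2 * Real.sqrt (Real.pi / (2 * κ)) * Real.exp (1 / (8 * κ)) /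
      Real.log 2) / W * (1 / (p : ℝ)) * (1 / (m : ℝ)) := by
  have hm0 : (2 : ℝ) ≤ m := by exact_mod_cast hm
  have hp0 : (0 : ℝ) < p := by exact_mod_cast hp
  have hl2 : 0 < Real.log 2 := Real.log_pos (by norm_num)
  have hlm : Real.log 2 ≤ Real.log m := Real.log_le_log (by norm_num) hm0
  have hne : p * m ≠ p := by
    intro h
    have : p * 1 < p * m := Nat.mul_lt_mul_of_pos_left (by omega) (by omega)
    omega
  have h1 := aw_bd (W := W) hκ hAB hW (n := p * m) (p := p) (by nlinarith) hp hne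
  have hs : Real.log (((p * m : ℕ) : ℝ) / p) = Real.log m := by
    congr 1
    push_cast
    field_simp
  rw [hs] at h1
  refine h1.trans ?_
  have h2 : (((p * m : ℕ) : ℝ) * p) ^ (-(1 / 2) : ℝ) * Real.exp (-(κ * Real.log m ^ 2 / 2)) ≤
      1 / (p : ℝ) * (1 / (m : ℝ)) * Real.exp (1 / (8 * κ)) := by
    have h3 : (((p * m : ℕ) : ℝ) * p) ^ (-(1 / 2) : ℝ) =
        1 / (p : ℝ) * Real.exp (-(Real.log m / 2)) := by
      rw [Real.rpow_def_of_pos (by push_cast; positivity)]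
      have h4 : Real.log (((p * m : ℕ) : ℝ) * p) = 2 * Real.log p + Real.log m := by
        push_cast
        rw [Real.log_mul (by positivity) (by positivity), Real.log_mul (by positivity) (by positivity)]
        ring
      rw [h4]
      have h5 : (1 : ℝ) / p = Real.exp (-Real.log p) := by
        rw [Real.exp_neg, Real.exp_log hp0]; ring
      rw [h5, ← Real.exp_add]
      congr 1; ring
    have h6 : (1 : ℝ) / m = Real.exp (-Real.log m) := by
      rw [Real.exp_neg, Real.exp_log (by linarith)]; ring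
    rw [h3, h6, mul_assoc, mul_assoc, ← Real.exp_add, ← Real.exp_add]
    apply mul_le_mul_of_nonneg_left _ (by positivity)
    apply Real.exp_le_exp.mpr
    have h7 : 0 ≤ κ / 2 * (Real.log m - 1 / (2 * κ)) ^ 2 := by positivity
    have h8 : κ / 2 * (Real.log m - 1 / (2 * κ)) ^ 2 =
        κ * Real.log m ^ 2 / 2 - Real.log m / 2 + 1 / (8 * κ) := by
      field_simp
      ring
    linarith
  have h9 : min 1 (2 / (W * |Real.log m|)) ≤ 2 / (W * Real.log 2) := by
    refine (min_le_right _ _).trans ?_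
    rw [abs_of_pos (by linarith)]
    gcongr
  have hm00 : (0 : ℝ) < m := by linarith
  have h90 : 0 ≤ min 1 (2 / (W * |Real.log m|)) :=
    le_min zero_le_one (by positivity)
  calc Real.sqrt (Real.pi / (2 * κ)) * (((p * m : ℕ) : ℝ) * p) ^ (-(1 / 2) : ℝ) *
      Real.exp (-(κ * Real.log m ^ 2 / 2)) * min 1 (2 / (W * |Real.log m|))
      = Real.sqrt (Real.pi / (2 * κ)) * ((((p * m : ℕ) : ℝ) * p) ^ (-(1 / 2) : ℝ) *
      Real.exp (-(κ * Real.log m ^ 2 / 2))) * min 1 (2 / (W * |Real.log m|)) := by ring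
    _ ≤ Real.sqrt (Real.pi / (2 * κ)) * (1 / (p : ℝ) * (1 / (m : ℝ)) * Real.exp (1 / (8 * κ))) *
      (2 / (W * Real.log 2)) := by
        apply mul_le_mul _ h9 h90 (by positivity)
        exact mul_le_mul_of_nonneg_left h2 (Real.sqrt_nonneg _)
    _ = _ := by
        have hW0 : 0 < W := by linarith
        field_simp

/-- the diagonal sum -/
lemma diag_split (A P : Finset ℕ) (M : ℕ) (hA : ∀ n ∈ A, 1 ≤ n ∧ n ≤ M)
    (hP : ∀ p ∈ P, p.Prime) (X : ℕ × ℕ → ℝ) (hX : ∀ q, 0 ≤ X q) :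
    ∑ j ∈ (A ×ˢ P).filter (fun q => q.1 ≠ q.2), ∑ k ∈ (A ×ˢ P).filter (fun q => q.1 ≠ q.2),
      (if j.1 * k.2 = k.1 * j.2 then X j * X k else 0) ≤
    ∑ j ∈ (A ×ˢ P).filter (fun q => q.1 ≠ q.2), X j ^ 2 +
    ∑ m ∈ Finset.Icc 2 M, (∑ j ∈ (A ×ˢ P).filter (fun q => q.1 ≠ q.2),
      (if j.1 = j.2 * m then X j else 0)) ^ 2 := by
  classical
  set s := (A ×ˢ P).filter (fun q => q.1 ≠ q.2) with hs
  have h1 : ∀ j ∈ s, ∀ k ∈ s, (if j.1 * k.2 = k.1 * j.2 then X j * X k else 0) ≤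
      (if j = k then X j * X k else 0) + ∑ m ∈ Finset.Icc 2 M,
        (if j.1 = j.2 * m then X j else 0) * (if k.1 = k.2 * m then X k else 0) := by
    intro j hj k hk
    rw [hs, Finset.mem_filter, Finset.mem_product] at hj hk
    have hnn : ∀ m ∈ Finset.Icc 2 M, 0 ≤
        (if j.1 = j.2 * m then X j else 0) * (if k.1 = k.2 * m then X k else 0) := by
      intro m _
      apply mul_nonneg <;> split_ifs <;> first | exact hX _ | exact le_rfl
    split_ifs with h2 h3 h3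
    · have := Finset.sum_nonneg hnn
      linarith
    · rw [zero_add]
      have hjp := hP _ hj.1.2
      have hkp := hP _ hk.1.2
      have hne : j.2 ≠ k.2 := by
        intro h
        apply h3
        rw [← h] at h2
        have h4 : j.1 = k.1 := Nat.eq_of_mul_eq_mul_right hjp.pos h2
        exact Prod.ext h4 h
      have hd : j.2 ∣ j.1 := by
        have h5 : j.2 ∣ j.1 * k.2 := ⟨k.1, by rw [h2]; ring⟩
        rcases (Nat.Prime.dvd_mul hjp).mp h5 with h6 | h6
        · exact h6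
        · exact absurd ((Nat.prime_dvd_prime_iff_eq hjp hkp).mp h6) hne
      obtain ⟨m, hm⟩ := hd
      have hkm : k.1 = k.2 * m := by
        apply Nat.eq_of_mul_eq_mul_right hjp.pos
        rw [← h2, hm]; ring
      have hjA := hA _ hj.1.1
      have hm1 : m ≠ 0 := by
        rintro rfl
        simp at hm
        omega
      have hm2 : m ≠ 1 := by
        rintro rfl
        simp at hm
        exact hj.2 hm
      have hmM : m ≤ M := by
        have : m ≤ j.2 * m := Nat.le_mul_of_pos_left m hjp.pos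
        omega
      have hmem : m ∈ Finset.Icc 2 M := by
        rw [Finset.mem_Icc]; omega
      calc X j * X k = (if j.1 = j.2 * m then X j else 0) * (if k.1 = k.2 * m then X k else 0) := by
            rw [if_pos hm, if_pos hkm]
        _ ≤ _ := Finset.single_le_sum hnn hmem
    · have := Finset.sum_nonneg hnn
      have h5 := mul_nonneg (hX j) (hX k)
      linarith
    · have := Finset.sum_nonneg hnn
      linarith
  calc _ ≤ ∑ j ∈ s, ∑ k ∈ s, ((if j = k then X j * X k else 0) + ∑ m ∈ Finset.Icc 2 M,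
        (if j.1 = j.2 * m then X j else 0) * (if k.1 = k.2 * m then X k else 0)) :=
        Finset.sum_le_sum fun j hj => Finset.sum_le_sum fun k hk => h1 j hj k hk
    _ = _ := by
        simp_rw [Finset.sum_add_distrib]
        congr 1
        · apply Finset.sum_congr rfl
          intro j hj
          rw [Finset.sum_ite_eq, if_pos hj, sq]
        · have h2 : ∀ m, (∑ j ∈ s, (if j.1 = j.2 * m then X j else 0)) ^ 2 =
              ∑ j ∈ s, ∑ k ∈ s, (if j.1 = j.2 * m then X j else 0) *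
                (if k.1 = k.2 * m then X k else 0) := by
            intro m
            rw [sq, Finset.sum_mul_sum]
          simp_rw [h2]
          have h3 : ∀ j ∈ s, (∑ k ∈ s, ∑ m ∈ Finset.Icc 2 M,
              (if j.1 = j.2 * m then X j else 0) * (if k.1 = k.2 * m then X k else 0)) =
              ∑ m ∈ Finset.Icc 2 M, ∑ k ∈ s,
              (if j.1 = j.2 * m then X j else 0) * (if k.1 = k.2 * m then X k else 0) :=
            fun j _ => Finset.sum_comm
          rw [Finset.sum_congr rfl h3]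
          exact Finset.sum_comm

theorem var (h1 : S_MV) (h2 : S_D1) : S_VAR := by
  classical
  intro κ hκ a b γ ha hab hbγ hγ
  obtain ⟨C0, hC0, hMV⟩ := h1
  obtain ⟨C2, hC2, hD1⟩ := h2 κ hκ
  obtain ⟨C1, hC1⟩ : ∃ C1, C1 = Real.sqrt (Real.pi / (2 * κ)) := ⟨_, rfl⟩
  have hC1p : 0 < C1 := by rw [hC1]; exact Real.sqrt_pos.mpr (by positivity)
  have hC1s : C1 ^ 2 = Real.pi / (2 * κ) := by rw [hC1]; exact Real.sq_sqrt (by positivity)
  have hl2 : 0 < Real.log 2 := Real.log_pos (by norm_num)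
  obtain ⟨K, hK⟩ : ∃ K, K = 2 * C1 * Real.exp (1 / (8 * κ)) / Real.log 2 := ⟨_, rfl⟩
  have hKp : 0 < K := by rw [hK]; positivity
  obtain ⟨Cs, hCs⟩ : ∃ Cs, Cs = ∑' m : ℕ, 1 / (m : ℝ) ^ 2 := ⟨_, rfl⟩
  have hsum : Summable (fun m : ℕ => 1 / (m : ℝ) ^ 2) :=
    Real.summable_one_div_nat_pow.mpr (by norm_num)
  have hCs0 : 0 ≤ Cs := by rw [hCs]; exact tsum_nonneg (fun m => by positivity)
  have hγ0 : 0 < γ := by linarith
  have hev : ∀ᶠ T : ℝ in atTop, 2 ≤ T ∧ Real.log T ^ 2 ≤ T ^ a ∧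
      3 * Real.log T ≤ (T / (4 * (T ^ γ) ^ 2)) ^ 2 := by
    have e1 := (isLittleO_log_rpow_atTop (half_pos ha)).bound (zero_lt_one)
    have e2 := (isLittleO_log_rpow_atTop (show 0 < 2 * (1 - 2 * γ) by linarith)).bound
      (show (0 : ℝ) < 1 / 48 by norm_num)
    filter_upwards [e1, e2, eventually_ge_atTop 2] with T hT1 hT2 hT3
    have hT0 : 0 < T := by linarith
    refine ⟨hT3, ?_, ?_⟩
    · rw [one_mul, Real.norm_eq_abs, Real.norm_eq_abs, abs_of_pos (Real.rpow_pos_of_pos hT0 _)]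
        at hT1
      calc Real.log T ^ 2 = |Real.log T| ^ 2 := (sq_abs _).symm
        _ ≤ (T ^ (a / 2)) ^ 2 := by gcongr
        _ = T ^ a := by
            rw [← Real.rpow_natCast, ← Real.rpow_mul hT0.le]
            congr 1; push_cast; ring
    · rw [Real.norm_eq_abs, Real.norm_eq_abs, abs_of_pos (Real.rpow_pos_of_pos hT0 _)] at hT2
      have h3 : (T / (4 * (T ^ γ) ^ 2)) ^ 2 = T ^ (2 * (1 - 2 * γ)) / 16 := by
        have h4 : (T ^ γ) ^ 2 = T ^ (2 * γ) := by
          rw [← Real.rpow_natCast, ← Real.rpow_mul hT0.le]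
          congr 1; push_cast; ring
        have h5 : T / (4 * (T ^ γ) ^ 2) = T ^ (1 - 2 * γ) / 4 := by
          rw [h4, Real.rpow_sub hT0, Real.rpow_one]
          field_simp
        rw [h5, div_pow, ← Real.rpow_natCast, ← Real.rpow_mul hT0.le]
        norm_num
        congr 1; ring
      rw [h3]
      have := le_abs_self (Real.log T)
      linarith
  obtain ⟨T0, hT0⟩ := hev.exists_forall_of_atTop
  refine ⟨C0 * (C1 ^ 2 * C2 + K ^ 2 * Cs + C1 ^ 2), max T0 2, by positivity, le_max_right _ _, ?_⟩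
  intro T hT W hW hWT
  obtain ⟨hT2, hTa, hTe⟩ := hT0 T (le_trans (le_max_left _ _) hT)
  have hTp : 0 < T := by linarith
  have hlT : 0 < Real.log T := Real.log_pos (by linarith)
  have hW0 : 0 < W := by linarith
  have hAB : a * Real.log T ≤ b * Real.log T := by gcongr
  obtain ⟨P0, hP0⟩ : ∃ P0, P0 = ∑ p ∈ PP a b T, 1 / (p : ℝ) := ⟨_, rfl⟩
  have hP0n : 0 ≤ P0 := by rw [hP0]; exact Finset.sum_nonneg fun p _ => by positivity
  rw [← hP0]
  obtain ⟨M, hM⟩ : ∃ M, M = ⌊T ^ γ⌋₊ := ⟨_, rfl⟩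
  rw [← hM]
  have hMT : (M : ℝ) ≤ T ^ γ := by rw [hM]; exact Nat.floor_le (by positivity)
  have hPP : ∀ p ∈ PP a b T, p.Prime ∧ W ≤ p ∧ (p : ℝ) ≤ T ^ γ ∧ p ≤ M := by
    intro p hp
    unfold PP at hp
    rw [Finset.mem_filter] at hp
    obtain ⟨_, hpp, hp1, hp2⟩ := hp
    have hp0 : (0 : ℝ) < p := by exact_mod_cast hpp.pos
    have h3 : (p : ℝ) ≤ T ^ γ := by
      rw [← Real.log_le_log_iff hp0 (by positivity), Real.log_rpow hTp]
      nlinarith
    have h4 : T ^ a ≤ (p : ℝ) := by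
      rw [← Real.log_le_log_iff (by positivity) hp0, Real.log_rpow hTp]
      linarith
    refine ⟨hpp, by linarith, h3, ?_⟩
    rw [hM]
    exact Nat.le_floor h3
  obtain ⟨s, hs⟩ : ∃ s, s = ((Finset.Icc 1 M) ×ˢ PP a b T).filter (fun q => q.1 ≠ q.2) :=
    ⟨_, rfl⟩
  rw [← hs]
  have hsm : ∀ q ∈ s, 1 ≤ q.1 ∧ q.1 ≤ M ∧ q.2 ∈ PP a b T ∧ q.1 ≠ q.2 := by
    intro q hq
    rw [hs, Finset.mem_filter, Finset.mem_product, Finset.mem_Icc] at hq
    exact ⟨hq.1.1.1, hq.1.1.2, hq.1.2, hq.2⟩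
  have hmv := hMV (ℕ × ℕ) s
    (fun q => aw κ (a * Real.log T) (b * Real.log T) W q.1 q.2) (fun q => q.1) (fun q => q.2)
    (T ^ γ) T (by linarith) (by
      intro q hq
      obtain ⟨q1, q2, q3, q4⟩ := hsm q hq
      obtain ⟨q5, q6, q7, q8⟩ := hPP _ q3
      refine ⟨q1, q5.one_lt.le, le_trans (by exact_mod_cast q2) hMT, q7⟩)
  refine hmv.trans ?_
  have hdiag := diag_split (Finset.Icc 1 M) (PP a b T) M (fun n hn => Finset.mem_Icc.mp hn)
    (fun p hp => (hPP p hp).1)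
    (fun q => ‖aw κ (a * Real.log T) (b * Real.log T) W q.1 q.2‖) (fun q => norm_nonneg _)
  rw [← hs] at hdiag
  have hD : ∑ q ∈ s, ‖aw κ (a * Real.log T) (b * Real.log T) W q.1 q.2‖ ^ 2 ≤
      C1 ^ 2 * C2 * (P0 / W) := by
    calc ∑ q ∈ s, ‖aw κ (a * Real.log T) (b * Real.log T) W q.1 q.2‖ ^ 2
        ≤ ∑ q ∈ s, C1 ^ 2 * ((1 / (q.2 : ℝ)) * (1 / (q.1 : ℝ) *
      Real.exp (-(κ * Real.log ((q.1 : ℝ) / q.2) ^ 2)) *
      min 1 (4 / (W * Real.log ((q.1 : ℝ) / q.2)) ^ 2))) := by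
          apply Finset.sum_le_sum
          intro q hq
          obtain ⟨q1, q2, q3, q4⟩ := hsm q hq
          obtain ⟨q5, q6, q7, q8⟩ := hPP _ q3
          rw [hC1s]
          exact aw_sq hκ hAB hW q1 q5.one_lt.le q4
      _ = ∑ p ∈ PP a b T, ∑ n ∈ (Finset.Icc 1 M).filter (fun n => n ≠ p),
          C1 ^ 2 * ((1 / (p : ℝ)) * (1 / (n : ℝ) *
      Real.exp (-(κ * Real.log ((n : ℝ) / p) ^ 2)) *
      min 1 (4 / (W * Real.log ((n : ℝ) / p)) ^ 2))) := by
          rw [hs, Finset.sum_filter, Finset.sum_product_right]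
          apply Finset.sum_congr rfl
          intro p hp
          rw [Finset.sum_filter]
      _ ≤ ∑ p ∈ PP a b T, C1 ^ 2 * ((1 / (p : ℝ)) * (C2 / W)) := by
          apply Finset.sum_le_sum
          intro p hp
          rw [← Finset.mul_sum, ← Finset.mul_sum]
          have := hD1 p M W hW (hPP p hp).2.1
          gcongr
      _ = C1 ^ 2 * C2 * (P0 / W) := by
          rw [← Finset.mul_sum, ← Finset.sum_mul, ← hP0]
          ring
  have hMu : ∑ m ∈ Finset.Icc 2 M, (∑ j ∈ s,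
      (if j.1 = j.2 * m then ‖aw κ (a * Real.log T) (b * Real.log T) W j.1 j.2‖ else 0)) ^ 2 ≤
      K ^ 2 * Cs * (P0 / W) ^ 2 := by
    calc _ ≤ ∑ m ∈ Finset.Icc 2 M, (K * (P0 / W)) ^ 2 * (1 / (m : ℝ) ^ 2) := by
          apply Finset.sum_le_sum
          intro m hm
          rw [Finset.mem_Icc] at hm
          have hm0 : (0 : ℝ) < m := by exact_mod_cast (show 0 < m by omega)
          have h4 : ∑ j ∈ s, (if j.1 = j.2 * m then
              ‖aw κ (a * Real.log T) (b * Real.log T) W j.1 j.2‖ else 0) ≤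
              K * (P0 / W) * (1 / (m : ℝ)) := by
            calc _ ≤ ∑ j ∈ s, (if j.1 = j.2 * m then K / W * (1 / (j.2 : ℝ)) * (1 / (m : ℝ))
                  else 0) := by
                  apply Finset.sum_le_sum
                  intro j hj
                  obtain ⟨q1, q2, q3, q4⟩ := hsm j hj
                  obtain ⟨q5, q6, q7, q8⟩ := hPP _ q3
                  split_ifs with h5
                  · rw [h5, hK, hC1]
                    exact aw_mul hκ hAB hW hm.1 q5.one_lt.le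
                  · exact le_rfl
              _ ≤ ∑ j ∈ (Finset.Icc 1 M) ×ˢ PP a b T,
                  (if j.1 = j.2 * m then K / W * (1 / (j.2 : ℝ)) * (1 / (m : ℝ)) else 0) := by
                  rw [hs]
                  apply Finset.sum_le_sum_of_subset_of_nonneg (Finset.filter_subset _ _)
                  intro j _ _
                  split_ifs <;> positivity
              _ = ∑ p ∈ PP a b T, ∑ n ∈ Finset.Icc 1 M,
                  (if n = p * m then K / W * (1 / (p : ℝ)) * (1 / (m : ℝ)) else 0) := by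
                  rw [Finset.sum_product_right]
              _ ≤ ∑ p ∈ PP a b T, K / W * (1 / (p : ℝ)) * (1 / (m : ℝ)) := by
                  apply Finset.sum_le_sum
                  intro p hp
                  rw [Finset.sum_ite_eq']
                  split_ifs
                  · exact le_rfl
                  · positivity
              _ = _ := by
                  rw [← Finset.sum_mul, ← Finset.mul_sum, ← hP0]
                  ring
          have h40 : 0 ≤ ∑ j ∈ s, (if j.1 = j.2 * m then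
              ‖aw κ (a * Real.log T) (b * Real.log T) W j.1 j.2‖ else 0) := by
            apply Finset.sum_nonneg
            intro j _
            split_ifs
            · exact norm_nonneg _
            · exact le_rfl
          calc _ ≤ (K * (P0 / W) * (1 / (m : ℝ))) ^ 2 := pow_le_pow_left₀ h40 h4 2
            _ = _ := by
              rw [mul_pow, div_pow, one_pow]
      _ = (K * (P0 / W)) ^ 2 * ∑ m ∈ Finset.Icc 2 M, (1 / (m : ℝ) ^ 2) := by
          rw [← Finset.mul_sum]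
      _ ≤ (K * (P0 / W)) ^ 2 * Cs := by
          apply mul_le_mul_of_nonneg_left _ (by positivity)
          rw [hCs]
          exact hsum.sum_le_tsum _ (fun m _ => by positivity)
      _ = _ := by ring
  have hO : T * ((∑ q ∈ s, ‖aw κ (a * Real.log T) (b * Real.log T) W q.1 q.2‖) ^ 2 *
      Real.exp (-(T / (4 * (T ^ γ) ^ 2)) ^ 2)) ≤ C1 ^ 2 := by
    have h5 : ∑ q ∈ s, ‖aw κ (a * Real.log T) (b * Real.log T) W q.1 q.2‖ ≤ T * C1 := by
      calc _ ≤ ∑ q ∈ s, C1 := by
            apply Finset.sum_le_sum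
            intro q hq
            obtain ⟨q1, q2, q3, q4⟩ := hsm q hq
            obtain ⟨q5, q6, q7, q8⟩ := hPP _ q3
            rw [hC1]
            exact aw_one hκ hAB hW q1 q5.one_lt.le q4
        _ = (s.card : ℝ) * C1 := by rw [Finset.sum_const, nsmul_eq_mul]
        _ ≤ T * C1 := by
            apply mul_le_mul_of_nonneg_right _ hC1p.le
            have h6 : s.card ≤ M * M := by
              calc s.card ≤ ((Finset.Icc 1 M) ×ˢ PP a b T).card := by
                    rw [hs]; exact Finset.card_filter_le _ _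
                _ = M * (PP a b T).card := by
                    rw [Finset.card_product, Nat.card_Icc]; simp
                _ ≤ M * M := by
                    apply Nat.mul_le_mul_left
                    calc (PP a b T).card ≤ (Finset.Icc 1 M).card := by
                          apply Finset.card_le_card
                          intro p hp
                          rw [Finset.mem_Icc]
                          exact ⟨(hPP p hp).1.one_lt.le, (hPP p hp).2.2.2⟩
                      _ = M := by rw [Nat.card_Icc]; simp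
            have hM0 : (0 : ℝ) ≤ M := by positivity
            calc (s.card : ℝ) ≤ (M : ℝ) * M := by exact_mod_cast h6
              _ ≤ T ^ γ * T ^ γ := by gcongr
              _ = T ^ (γ + γ) := (Real.rpow_add hTp _ _).symm
              _ ≤ T ^ (1 : ℝ) := Real.rpow_le_rpow_of_exponent_le (by linarith) (by linarith)
              _ = T := Real.rpow_one T
    have h50 : 0 ≤ ∑ q ∈ s, ‖aw κ (a * Real.log T) (b * Real.log T) W q.1 q.2‖ :=
      Finset.sum_nonneg fun q _ => norm_nonneg _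
    have h7 : Real.exp (-(T / (4 * (T ^ γ) ^ 2)) ^ 2) ≤ (T ^ 3)⁻¹ := by
      calc Real.exp (-(T / (4 * (T ^ γ) ^ 2)) ^ 2) ≤ Real.exp (-(3 * Real.log T)) := by
            apply Real.exp_le_exp.mpr; linarith
        _ = (T ^ 3)⁻¹ := by
            rw [Real.exp_neg]
            congr 1
            have : (3 : ℝ) * Real.log T = Real.log (T ^ 3) := by
              rw [Real.log_pow]; push_cast; ring
            rw [this, Real.exp_log (by positivity)]
    calc _ ≤ T * ((T * C1) ^ 2 * (T ^ 3)⁻¹) := by gcongr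
      _ = C1 ^ 2 := by field_simp
  have hT0' : 0 ≤ T := hTp.le
  have hPW : 0 ≤ P0 / W := by positivity
  calc C0 * T * (∑ j ∈ s, ∑ k ∈ s, (if j.1 * k.2 = k.1 * j.2 then
        ‖aw κ (a * Real.log T) (b * Real.log T) W j.1 j.2‖ *
        ‖aw κ (a * Real.log T) (b * Real.log T) W k.1 k.2‖ else 0) +
      (∑ q ∈ s, ‖aw κ (a * Real.log T) (b * Real.log T) W q.1 q.2‖) ^ 2 *
      Real.exp (-(T / (4 * (T ^ γ) ^ 2)) ^ 2))
      ≤ C0 * T * (C1 ^ 2 * C2 * (P0 / W) + K ^ 2 * Cs * (P0 / W) ^ 2 +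
      (∑ q ∈ s, ‖aw κ (a * Real.log T) (b * Real.log T) W q.1 q.2‖) ^ 2 *
      Real.exp (-(T / (4 * (T ^ γ) ^ 2)) ^ 2)) := by
        apply mul_le_mul_of_nonneg_left _ (by positivity)
        have := hdiag.trans (add_le_add hD hMu)
        linarith
    _ = C0 * T * (C1 ^ 2 * C2 * (P0 / W) + K ^ 2 * Cs * (P0 / W) ^ 2) + C0 * (T *
      ((∑ q ∈ s, ‖aw κ (a * Real.log T) (b * Real.log T) W q.1 q.2‖) ^ 2 *
      Real.exp (-(T / (4 * (T ^ γ) ^ 2)) ^ 2))) := by ring
    _ ≤ C0 * T * (C1 ^ 2 * C2 * (P0 / W) + K ^ 2 * Cs * (P0 / W) ^ 2) + C0 * C1 ^ 2 := by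
        gcongr
    _ ≤ _ := by
        have e1 : 0 ≤ C0 * T * (P0 / W) := by positivity
        have e2 : 0 ≤ C0 * T * (P0 / W) ^ 2 := by positivity
        have e3 : 0 ≤ C1 ^ 2 * C2 := by positivity
        have e4 : 0 ≤ K ^ 2 * Cs := by positivity
        have e5 : 0 ≤ C1 ^ 2 := by positivity
        nlinarith [mul_nonneg e1 e4, mul_nonneg e1 e5, mul_nonneg e2 e3, mul_nonneg e2 e5,
          mul_nonneg hC0.le e3, mul_nonneg hC0.le e4]

end Pool.Agent.W112.BH
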